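import Pool.Agent.Helper62.BL.FewA

/-!
# L11: the soft Stepanov method for the level curves
-/

set_option autoImplicit false

open Polynomial Matrix Finset

namespace Pool.Agent.Helper62.BM.FG

open Pool.Agent.Helper62.BM
open Pool.Agent.Helper36.BM (mon shift degree_shift mon_ode aeval_scaled)
open Pool.Agent.Helper12.BM (Sm_symm sum_split lo_or_hi stepJ Jd Mm mon_ode' map_Mm natDegree_mon
  Fc sum_Fc M0 ode_zero ι_inj two_neK map_Em map_bp)

section q2

/-- `2 Qf` over `C[X]`. -/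
noncomputable def Q2f {C : Type} [CommRing C] (n : ℕ) (f : C[X]) : Matrix (Fin n) (Fin n) C[X] :=
  Matrix.of fun l m => (((l : ℕ) : C[X]) - ((m : ℕ) : C[X])) *
    Polynomial.C (f.coeff ((l : ℕ) + m + 2))

theorem Q2f_field {C : Type} [CommRing C] {F : Type} [Field F] (h2 : (2 : F) ≠ 0) (n : ℕ)
    (f : C[X]) (ψ : C[X] →+* F) (l m : Fin n) :
    ψ (Q2f n f l m) = 2 * Qf n (f.map (ψ.comp Polynomial.C)) l m := by
  rw [Q2f, Matrix.of_apply, Qf, Matrix.of_apply, map_mul, map_sub, map_natCast, map_natCast,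
    coeff_map]
  change _ * ψ (Polynomial.C _) = 2 * (_ * ψ (Polynomial.C _))
  field_simp

theorem map_Qf {F K : Type} [Field F] [Field K] (φ : F →+* K) (n : ℕ) (f : F[X]) :
    (Qf n f).map φ = Qf n (f.map φ) := by
  ext1 l m
  rw [Matrix.map_apply, Qf, Matrix.of_apply, Qf, Matrix.of_apply, map_mul, map_div₀, map_sub,
    map_natCast, map_natCast, map_ofNat, coeff_map]

theorem cs_ne (hQ : L_QfDet) {A : Type} [CommRing A] [IsDomain A] [CharZero A]
    {g : ℕ} (hg : 1 ≤ g) (f : A[X]) (hf : f.natDegree = 2 * g + 1) :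
    cs (g := g) (Q2f (2 * g) f) ≠ 0 := by
  let F := FractionRing A[X]
  let ψ : A[X] →+* F := algebraMap A[X] F
  have hinj : Function.Injective ψ := IsFractionRing.injective A[X] F
  have : CharZero F := charZero_of_injective_algebraMap hinj
  have hinj' : Function.Injective (ψ.comp Polynomial.C) := hinj.comp Polynomial.C_injective
  intro h0
  have h1 := (hQ F g (fun m hm _ => by
      rw [Nat.cast_ne_zero]; omega) (f.map (ψ.comp Polynomial.C))
      (by rw [natDegree_map_eq_of_injective hinj', hf]) hg).2.1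
  have h2 : (2 : F) ≠ 0 := two_ne_zero
  have e : ((Q2f (2 * g) f).submatrix (lo : Fin g → Fin (2 * g)) hi).map ψ =
      (2 : F) • (Qf (2 * g) (f.map (ψ.comp Polynomial.C))).submatrix
        (lo : Fin g → Fin (2 * g)) hi := by
    ext1 i j
    rw [Matrix.map_apply, Matrix.submatrix_apply, Matrix.smul_apply, Matrix.submatrix_apply,
      Q2f_field h2, smul_eq_mul]
  have h3 : ψ (cs (g := g) (Q2f (2 * g) f)) = 0 := by rw [h0, map_zero]
  rw [cs, map_mul, map_ofNat, RingHom.map_det] at h3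
  have e' : ψ.mapMatrix ((Q2f (2 * g) f).submatrix (lo : Fin g → Fin (2 * g)) hi) =
      (2 : F) • (Qf (2 * g) (f.map (ψ.comp Polynomial.C))).submatrix
        (lo : Fin g → Fin (2 * g)) hi := e
  rw [e', Matrix.det_smul] at h3
  exact (mul_ne_zero h2 (mul_ne_zero (pow_ne_zero _ h2) h1)) h3

end q2

section nondeg

variable {F : Type} [Field F] {g : ℕ}

theorem ok (hE : S_EDet) (hEQ : L_EQ) (hQ : L_QfDet)
    (hm : ∀ m : ℕ, 1 ≤ m → m ≤ 2 * g → (m : F) ≠ 0) (hg : 1 ≤ g) (f : F[X]) (lam : F)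
    (c : Fin (2 * g) → F) (hl : lam ≠ 0) (h : Crit g f lam c) :
    OkP (Qc f c) (Em c) (kc lam c) fun j => f.eval (c j) := by
  have h2 : (2 : F) ≠ 0 := by
    have := hm 2 (by norm_num) (by omega)
    exact_mod_cast this
  obtain ⟨hdeg, hder, hc, hv⟩ := h
  have hEQ' := hEQ F h2 g f lam c ⟨hdeg, hder, hc, hv⟩ hl
  obtain ⟨q1, q2, q3, q4⟩ := hQ F g hm f hdeg hg
  have hw : ∀ i, wt c i ≠ 0 := by
    intro i
    rw [wt, Finset.prod_ne_zero_iff]
    intro m hm h0
    exact (Finset.ne_of_mem_erase hm) (hc (sub_eq_zero.mp (inv_eq_zero.mp h0))).symm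
  have hQt : (Qc f c)ᵀ = -Qc f c := by
    ext1 i j
    rw [Matrix.transpose_apply, Matrix.neg_apply, Qc, Matrix.of_apply, Matrix.of_apply]
    by_cases hij : i = j
    · rw [if_pos hij.symm, if_pos hij, neg_zero]
    · rw [if_neg (Ne.symm hij), if_neg hij, ← neg_sub (c i) (c j), neg_sq]
      ring
  refine ⟨⟨hQt, ?_, ?_, ?_, hv⟩, hE F (2 * g) c hc, ?_, ?_⟩
  · intro h0
    apply q1
    rw [← hEQ', Matrix.det_mul, Matrix.det_mul, h0, mul_zero, zero_mul]
  · intro i j hij
    rw [Qc, Matrix.of_apply, if_neg hij]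
    refine div_ne_zero (mul_ne_zero (mul_ne_zero (hw i) (hw j)) ?_) (pow_ne_zero _ ?_)
    · intro h0
      exact hij (hv (sub_eq_zero.mp h0)).symm
    · intro h0
      exact hij (hc (sub_eq_zero.mp h0))
  · intro j
    rw [kc]
    refine mul_ne_zero (inv_ne_zero hl) ?_
    rw [Finset.prod_ne_zero_iff]
    intro m hm h0
    exact (Finset.ne_of_mem_erase hm) (hc (sub_eq_zero.mp h0)).symm
  · rw [hEQ']; exact q3
  · rw [hEQ']; exact q2

end nondeg

section frame

variable {k : Type} [Field k]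

theorem map_Em_cst {n : ℕ} (c : Fin n → k) :
    ((Em c).map Polynomial.C).map (ι k) = (Em c).map (cst k) := by
  ext1 i j
  rfl

/-- The image of the frame in the field of rational functions is horizontal. -/
theorem horK (hHWb : L_HWb) (p : ℕ) [Fact p.Prime] [CharP k p] (g : ℕ) (hp : 2 * g + 1 < p)
    (f : k[X]) (lam : k) (c : Fin (2 * g) → k) (h : Crit g f lam c) (hl : lam ≠ 0)
    (D : Der (KX k)) (hD : IsDer D) (i : Fin g) (j : Fin (2 * g)) :
    D (((Yh p g (2 * g) (ft f)).map (ι k) * (Em c).map (cst k)) i j) =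
      (((Yh p g (2 * g) (ft f)).map (ι k) * (Em c).map (cst k)) *
        BqX (Qc f c) (kc lam c) (fun j => f.eval (c j))) i j := by
  classical
  have e1 : (Yh p g (2 * g) (ft f)).map (ι k) * (Em c).map (cst k) =
      (Yh p g (2 * g) (ft f) * (Em c).map Polynomial.C).map (ι k) := by
    rw [Matrix.map_mul, map_Em_cst]
  rw [e1, Matrix.map_apply, hD]
  conv_rhs => rw [Matrix.mul_apply]
  have h := congrArg (ι k) (hHWb k p g f lam c hp h hl i j)
  rw [map_mul, map_sum, map_sub] at h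
  have hne : ι k X - ι k (Polynomial.C (f.eval (c j))) ≠ 0 := by
    rw [← map_sub]
    intro h0
    have := ι_inj k (h0.trans (map_zero (ι k)).symm)
    exact X_sub_C_ne_zero _ this
  apply mul_left_cancel₀ hne
  rw [h, Finset.mul_sum]
  refine Finset.sum_congr rfl fun m _ => ?_
  rw [BqX, Bq, Matrix.of_apply, map_mul, Matrix.map_apply, Matrix.map_apply]
  have e2 : ι k (Polynomial.C (Qc f c m j * kc lam c j)) =
      cst k (Qc f c m j) * cst k (kc lam c j) := by
    rw [← map_mul]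
    rfl
  rw [e2]
  change _ = (ι k X - ι k (Polynomial.C (f.eval (c j)))) * (_ * (_ *
    (ι k X - ι k (Polynomial.C (f.eval (c j))))⁻¹))
  field_simp

theorem ft_coeff {C : Type} [CommRing C] (f : C[X]) (l : ℕ) (hl : l ≠ 0) :
    (ft f).coeff l = Polynomial.C (f.coeff l) := by
  rw [ft, coeff_sub, coeff_map, coeff_C_ne_zero hl, sub_zero]

theorem ft_natDegree {C : Type} [CommRing C] [Nontrivial C] (f : C[X]) (hf : 1 ≤ f.natDegree) :
    (ft f).natDegree = f.natDegree := by
  rw [ft]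
  have h1 : (f.map (Polynomial.C : C →+* C[X])).natDegree = f.natDegree :=
    natDegree_map_eq_of_injective Polynomial.C_injective f
  rw [natDegree_sub_C, h1]

theorem isoK (hHWiso : L_HWiso) (p : ℕ) [Fact p.Prime] [CharP k p] (hp2 : p ≠ 2)
    (h2 : (2 : KX k) ≠ 0) (g : ℕ) (f : k[X]) (hf : f.natDegree = 2 * g + 1) :
    (Yh p g (2 * g) (ft f)).map (ι k) * (Qf (2 * g) f).map (cst k) *
      ((Yh p g (2 * g) (ft f)).map (ι k))ᵀ = 0 := by
  ext1 i i'
  have h := congrArg (ι k) (hHWiso k[X] p hp2 g (ft f)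
    (by rw [ft_natDegree f (by omega), hf]) i i')
  rw [map_zero, map_sum] at h
  rw [Matrix.zero_apply, Matrix.mul_apply]
  apply mul_left_cancel₀ h2
  rw [mul_zero, ← h, Finset.mul_sum]
  simp only [map_sum]
  rw [Finset.sum_comm]
  refine Finset.sum_congr rfl fun m _ => ?_
  rw [Matrix.mul_apply, Matrix.transpose_apply, Finset.sum_mul, Finset.mul_sum]
  refine Finset.sum_congr rfl fun l _ => ?_
  have e : ι k ((((l : ℕ) : k[X]) - ((m : ℕ) : k[X])) * (ft f).coeff ((l : ℕ) + m + 2)) =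
      2 * ((Qf (2 * g) f).map (cst k)) l m := by
    rw [ft_coeff f _ (by omega), map_Qf]
    exact Q2f_field h2 (2 * g) f (ι k) l m
  rw [map_mul, map_mul, e]
  simp only [Matrix.map_apply]
  ring

theorem map_Yh {R S : Type} [CommRing R] [CommRing S] (ψ : R →+* S) (p g n : ℕ) (h : R[X]) :
    (Yh p g n h).map ψ = Yh p g n (h.map ψ) := by
  ext1 i l
  rw [Matrix.map_apply, Yh, Matrix.of_apply, Yh, Matrix.of_apply, ← coeff_map, Polynomial.map_mul,
    Polynomial.map_pow, Polynomial.map_pow, map_X]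

theorem sepK (g : ℕ) (f : k[X]) (lam : k) (c : Fin (2 * g) → k) (h : Crit g f lam c)
    (hl : lam ≠ 0) : ((ft f).map (ι k)).Separable := by
  rw [Polynomial.separable_def]
  have e1 : derivative ((ft f).map (ι k)) =
      Polynomial.C (cst k lam) * ∏ j, (X - Polynomial.C (cst k (c j))) := by
    rw [derivative_map, ft, derivative_sub, derivative_C, sub_zero, derivative_map, h.2.1]
    rw [Polynomial.map_mul, Polynomial.map_mul, Polynomial.map_prod, Polynomial.map_prod]
    simp
  rw [e1]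
  have hu : IsUnit (Polynomial.C (cst k lam)) := by
    rw [Polynomial.isUnit_C, isUnit_iff_ne_zero]
    intro h0
    exact hl ((cst k).injective (h0.trans (map_zero _).symm))
  rw [isCoprime_mul_unit_left_right hu]
  refine IsCoprime.prod_right fun j _ => ?_
  have h3 : ((ft f).map (ι k)).eval (cst k (c j)) ≠ 0 := by
    have e2 : ((ft f).map (ι k)).eval (cst k (c j)) =
        ι k (Polynomial.C (f.eval (c j)) - X) := by
      rw [ft, Polynomial.map_sub, Polynomial.map_map, Polynomial.map_C, eval_sub, eval_C,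
        map_sub]
      congr 1
      exact Polynomial.eval_map_apply _ _
    rw [e2]
    intro h0
    have h4 := ι_inj k (h0.trans (map_zero (ι k)).symm)
    have h5 : X - Polynomial.C (f.eval (c j)) = 0 := by
      rw [← neg_sub, h4, neg_zero]
    exact X_sub_C_ne_zero _ h5
  have h6 : IsCoprime (X - Polynomial.C (cst k (c j))) ((ft f).map (ι k)) := by
    rw [(Polynomial.irreducible_X_sub_C (cst k (c j))).coprime_iff_not_dvd, dvd_iff_isRoot]
    exact h3
  exact h6.symm

end frame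

theorem fewG (hStep : S_Step) (hNV : L_NV) (hFrac : S_Frac) (hHWb : L_HWb) (hHWdeg : L_HWdeg)
    (hHWiso : L_HWiso) (hHWrank : L_HWrank) (hE : S_EDet) (hEQ : L_EQ) (hQf : L_QfDet)
    (hLE : L_E) : L_FewG := by
  intro g hg A _ _ _ f lam c hCr G hG ε hε
  classical
  obtain ⟨hdeg, hder, hc, hv⟩ := hCr
  have hf0 : f.leadingCoeff ≠ 0 := by
    rw [Ne, leadingCoeff_eq_zero]
    intro h0
    rw [h0, natDegree_zero] at hdeg
    omega
  have hlam : lam ≠ 0 := by
    intro h0
    rw [h0, map_zero, zero_mul] at hder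
    have := Polynomial.derivative_eq_zero.mp hder
    omega
  set Q2 := Q2f (2 * g) f with hQ2
  have hs0 : cs (g := g) Q2 ≠ 0 := cs_ne hQf hg f hdeg
  set v : Fin (2 * g) → A := fun j => f.eval (c j) with hvdef
  have hDl : Dl lam c ≠ 0 := Dl_ne lam c hlam hc
  have hEd : (Em c).det ≠ 0 := by
    let F := FractionRing A
    let ψ : A →+* F := algebraMap A F
    have hinj : Function.Injective ψ := IsFractionRing.injective A F
    intro h0
    refine hE F (2 * g) (fun j => ψ (c j)) (hinj.comp hc) ?_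
    rw [← map_Em]
    have := RingHom.map_det ψ (Em c)
    rw [h0, map_zero] at this
    exact this.symm
  have hq10 : q1 (Em c) (Dl lam c) v ≠ 0 := by
    rw [q1]
    refine mul_ne_zero (mul_ne_zero ?_ ?_) ?_
    · rwa [Ne, Polynomial.C_eq_zero]
    · rw [Finset.prod_ne_zero_iff]
      exact fun j _ => X_sub_C_ne_zero _
    · rwa [Ne, Polynomial.C_eq_zero]
  set d := G.totalDegree with hd
  set s := cs (g := g) Q2 with hs
  set qh := s * q1 (Em c) (Dl lam c) v with hqh
  have hq0 : qh ≠ 0 := mul_ne_zero hs0 hq10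
  set bh : Matrix (Fin (2 * g)) (Fin (2 * g)) A[X] := Matrix.of fun m l =>
    (if m = l then q1 (Em c) (Dl lam c) v * derivative s else 0) +
      s * b1 (Em c) (Nm f c) v m l with hbh
  have hη₀ : (MvPolynomial.C s : MvPolynomial (Vars g) A[X]) ^ d *
      MvPolynomial.rename (Sum.inl : Fin g × Fin g → Vars g) G ≠ 0 := by
    refine mul_ne_zero (pow_ne_zero _ ?_) ?_
    · rwa [Ne, MvPolynomial.C_eq_zero]
    · intro h0
      apply hG
      apply MvPolynomial.rename_injective _ Sum.inl_injective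
      rw [h0, map_zero]
  obtain ⟨e, A₀, β, p₁, a₁, ha₁, hst⟩ := stepJ hStep A (Vars g) (Jd g (2 * g) d)
    ((MvPolynomial.C s) ^ d * MvPolynomial.rename (Sum.inl : Fin g × Fin g → Vars g) G)
    (fun m => ∏ x, (Rm Q2 x.1 x.2) ^ m.1 x) hη₀ qh (M0 s qh bh G) (Mm bh) hq0 ε hε
    ((univ.sup fun m : Jd g (2 * g) d => (Fc s G m).natDegree) + d * (s.natDegree + 1))
  set Dm := univ.sup fun m : Jd g (2 * g) d => (Fc s G m).natDegree with hDm
  obtain ⟨p₂, hnv⟩ := hNV g hg (fun m => 2 * (2 * g + 1) * (m + 1)) e A₀ β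
  refine ⟨p₁ + p₂ + 2 * g + 3, a₁ * (Dl lam c * f.leadingCoeff *
    ∏ i, ∏ j ∈ univ.erase i, (v i - v j)), ?_, ?_⟩
  · refine mul_ne_zero ha₁ (mul_ne_zero (mul_ne_zero hDl hf0) ?_)
    rw [Finset.prod_ne_zero_iff]
    intro i _
    rw [Finset.prod_ne_zero_iff]
    intro j hj h0
    exact (Finset.ne_of_mem_erase hj) (hv (sub_eq_zero.mp h0)).symm
  intro p _ k _ _ φ hp hφ T hT
  rw [map_mul, map_mul, map_mul] at hφ
  have hφ₁ := left_ne_zero_of_mul hφ
  have hφ₂ := left_ne_zero_of_mul (left_ne_zero_of_mul (right_ne_zero_of_mul hφ))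
  have hφ₃ := right_ne_zero_of_mul (left_ne_zero_of_mul (right_ne_zero_of_mul hφ))
  have hφ₄ := right_ne_zero_of_mul (right_ne_zero_of_mul hφ)
  rw [map_Dl] at hφ₂
  obtain ⟨hl', hc'⟩ := inj_of_Dl _ _ hφ₂
  have hvφ : ∀ j, (f.map φ).eval (φ (c j)) = φ (v j) := fun j => Polynomial.eval_map_apply φ _
  have hv' : Function.Injective fun j => (f.map φ).eval (φ (c j)) := by
    intro i j hij
    by_contra hne
    apply hφ₄
    rw [map_prod]
    refine Finset.prod_eq_zero (Finset.mem_univ i) ?_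
    rw [map_prod]
    refine Finset.prod_eq_zero (Finset.mem_erase.mpr ⟨Ne.symm hne, Finset.mem_univ j⟩) ?_
    rw [map_sub, sub_eq_zero, ← hvφ, ← hvφ]
    exact hij
  have hCr' : Crit g (f.map φ) (φ lam) fun j => φ (c j) := by
    refine ⟨?_, ?_, hc', hv'⟩
    · rw [natDegree_map_of_leadingCoeff_ne_zero φ hφ₃, hdeg]
    · rw [derivative_map, hder, Polynomial.map_mul, Polynomial.map_prod]
      simp
  have hp2 : p ≠ 2 := by omega
  have hmk : ∀ m : ℕ, 1 ≤ m → m ≤ 2 * g → (m : k) ≠ 0 := by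
    intro m h1 h3 h0
    rw [CharP.cast_eq_zero_iff k p] at h0
    have := Nat.le_of_dvd h1 h0
    omega
  have h2 : (2 : KX k) ≠ 0 := by
    have := two_neK (k := k) p 2 (by norm_num) (by omega)
    exact_mod_cast this
  have h2k : (2 : k) ≠ 0 := by
    have := hmk 2 (by norm_num) (by omega)
    exact_mod_cast this
  have hOk := ok hE hEQ hQf hmk hg (f.map φ) (φ lam) (fun j => φ (c j)) hl' hCr'
  have hEQ' := hEQ k h2k g (f.map φ) (φ lam) (fun j => φ (c j)) hCr' hl'
  obtain ⟨D, hD, -⟩ := hFrac k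
  set Y := (Yh p g (2 * g) (ft (f.map φ))).map (ι k) with hY
  have hI := isoK hHWiso p hp2 h2 g (f.map φ) hCr'.1
  have hN := hnv p k (by omega) (Qc (f.map φ) fun j => φ (c j)) (Em fun j => φ (c j))
    (kc (φ lam) fun j => φ (c j)) (fun j => (f.map φ).eval (φ (c j))) hOk
    (fun m hm => (hLE k p g (f.map φ) (φ lam) (fun j => φ (c j)) hCr' hl' m hm).1)
    (fun m h1 hm => (hLE k p g (f.map φ) (φ lam) (fun j => φ (c j)) hCr' hl' m hm).2 h1)
    D hD Y (fun i j => horK hHWb p g (by omega) (f.map φ) (φ lam) (fun j => φ (c j)) hCr' hl'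
      D hD i j)
    (by
      intro y hy
      refine hHWrank (KX k) p g ((ft (f.map φ)).map (ι k)) (by omega) ?_ ?_ y ?_
      · rw [natDegree_map_eq_of_injective (ι_inj k), ft_natDegree _ (by rw [hCr'.1]; omega), hCr'.1]
      · exact sepK g (f.map φ) (φ lam) (fun j => φ (c j)) hCr' hl'
      · rw [← map_Yh]; exact hy)
    (by rw [hEQ']; exact hI)
  rw [hEQ'] at hN
  obtain ⟨hYdet, hNVp⟩ := hN
  obtain ⟨-, -, hQ22, hQa⟩ := hQf k g hmk (f.map φ) hCr'.1 hg
  have hQ22' : ((Qf (2 * g) (f.map φ)).map (cst k)).submatrix (hi : Fin g → Fin (2 * g)) hi = 0 := by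
    ext1 i j
    have := congrFun (congrFun hQ22 i) j
    rw [Matrix.submatrix_apply, Matrix.zero_apply] at this
    rw [Matrix.submatrix_apply, Matrix.map_apply, this, map_zero, Matrix.zero_apply]
  have hQa' : ((Qf (2 * g) (f.map φ)).map (cst k))ᵀ = -(Qf (2 * g) (f.map φ)).map (cst k) := by
    ext1 i j
    have := congrFun (congrFun hQa i) j
    rw [Matrix.transpose_apply, Matrix.neg_apply] at this
    rw [Matrix.transpose_apply, Matrix.map_apply, this, map_neg, Matrix.neg_apply,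
      Matrix.map_apply]
  have hEmφ : (Em c).map φ = Em fun j => φ (c j) := map_Em φ c
  have hNmφ : (Nm f c).map φ = Nm (f.map φ) fun j => φ (c j) := map_Nm φ f c
  set bh' : Matrix (Fin (2 * g)) (Fin (2 * g)) k[X] := Matrix.of fun m l =>
    (if m = l then q1 (Em fun j => φ (c j)) (Dl (φ lam) fun j => φ (c j))
      (fun j => φ (v j)) * derivative (s.map φ) else 0) +
      s.map φ * b1 (Em fun j => φ (c j)) (Nm (f.map φ) fun j => φ (c j))
        (fun j => φ (v j)) m l with hbh'
  have hbφ : ∀ l m, (bh l m).map φ = bh' l m := by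
    intro l m
    rw [hbh, hbh', Matrix.of_apply, Matrix.of_apply, Polynomial.map_add, Polynomial.map_mul,
      map_b1, hEmφ, hNmφ]
    split_ifs
    · rw [Polynomial.map_mul, ← derivative_map, map_q1, hEmφ, map_Dl]
    · rw [Polynomial.map_zero]
  have hode : ∀ i l, qh.map φ * derivative (((s.map φ) • Yh p g (2 * g) (ft (f.map φ))) i l) =
      ∑ m, ((s.map φ) • Yh p g (2 * g) (ft (f.map φ))) i m * bh' m l := by
    intro i l
    rw [hqh, Polynomial.map_mul, map_q1, hEmφ, map_Dl]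
    refine ode2 (s.map φ) _ (b1 (Em fun j => φ (c j)) (Nm (f.map φ) fun j => φ (c j))
        (fun j => φ (v j))) (Yh p g (2 * g) (ft (f.map φ))) ?_ i l
    refine ode1 _ _ _ _ _ ?_
    intro i j
    have h := hHWb k p g (f.map φ) (φ lam) (fun j => φ (c j)) (by omega) hCr' hl' i j
    rw [hvφ] at h
    rw [h, Finset.mul_sum]
    refine Finset.sum_congr rfl fun m _ => ?_
    have h6 : Polynomial.C (Nm (f.map φ) (fun j => φ (c j)) m j) =
        Polynomial.C (Dl (φ lam) fun j => φ (c j)) * Polynomial.C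
          (Qc (f.map φ) (fun j => φ (c j)) m j * kc (φ lam) (fun j => φ (c j)) j) := by
      rw [clear (f.map φ) (φ lam) (fun j => φ (c j)) hl' hc', map_mul]
    rw [h6]
    ring
  have hZ₀ := sum_Fc (d := d) φ s G le_rfl (Yh p g (2 * g) (ft (f.map φ)))
  have hdY : ∀ i l, (((s.map φ) • Yh p g (2 * g) (ft (f.map φ))) i l).natDegree ≤
      (s.natDegree + 1) * p := by
    intro i l
    rw [Matrix.smul_apply, smul_eq_mul]
    refine natDegree_mul_le.trans ?_
    have h1 := hHWdeg k p g (2 * g) (f.map φ) i l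
    have h3 : (s.map φ).natDegree ≤ s.natDegree := natDegree_map_le
    have h4 : s.natDegree ≤ s.natDegree * p := Nat.le_mul_of_pos_right _ (by omega)
    have h5 : (p - 1) / 2 ≤ p := (Nat.div_le_self _ _).trans (Nat.sub_le _ _)
    rw [add_mul, one_mul]
    omega
  have hdm : ∀ m : Jd g (2 * g) d,
      (mon ((s.map φ) • Yh p g (2 * g) (ft (f.map φ))) m.1).natDegree ≤
        d * (s.natDegree + 1) * p := by
    intro m
    refine (natDegree_mon _ _ hdY m.1).trans ?_
    rw [mul_assoc]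
    exact Nat.mul_le_mul_right _ m.2
  refine hst p k φ (by omega) hφ₁ ((s.map φ) ^ d * MvPolynomial.eval₂ (mapRingHom φ)
    (fun x : Fin g × Fin g => (Yh p g (2 * g) (ft (f.map φ))) x.1 (lo x.2)) G)
    (fun m => mon ((s.map φ) • Yh p g (2 * g) (ft (f.map φ))) m.1)
    (frv ((Qf (2 * g) (f.map φ)).map (cst k)) Y)
    ?_ ?_ ?_ ?_ ?_ ?_ hNVp T ?_
  · rw [map_mul, map_pow, MvPolynomial.eval₂_mul, MvPolynomial.eval₂_pow, MvPolynomial.eval₂_C,
      MvPolynomial.eval₂_rename, MvPolynomial.eval₂_comp_left]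
    rfl
  · intro m
    have h1 : ∀ x : Fin g × Fin (2 * g), MvPolynomial.eval₂ ((ι k).comp (mapRingHom φ))
        (frv ((Qf (2 * g) (f.map φ)).map (cst k)) Y)
        (Rm Q2 x.1 x.2) = ι k (((s.map φ) • Yh p g (2 * g) (ft (f.map φ))) x.1 x.2) := by
      intro x
      have h3 := eval_Rm ((ι k).comp (mapRingHom φ)) Q2 h2 ((Qf (2 * g) (f.map φ)).map (cst k))
        Y hQa' hQ22' hYdet hI ?_ x.1 x.2
      · rw [h3, Matrix.smul_apply, smul_eq_mul, map_mul]
        rfl
      · intro l m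
        have h4 := Q2f_field h2 (2 * g) f ((ι k).comp (mapRingHom φ)) l m
        rw [hQ2, h4, map_Qf, Polynomial.map_map]
        congr 3
        ext1 x
        simp
    rw [mon, map_prod, ← MvPolynomial.coe_eval₂Hom, map_prod]
    refine Finset.prod_congr rfl fun x _ => ?_
    rw [map_pow, map_pow, MvPolynomial.coe_eval₂Hom, h1]
  · rw [hZ₀]
    exact ode_zero φ s qh bh bh' hbφ G _ hode
  · intro m
    rw [mon_ode' _ _ _ hode m]
    refine Finset.sum_congr rfl fun m' _ => ?_
    rw [map_Mm φ bh bh' hbφ]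
  · rw [hZ₀, add_mul]
    refine natDegree_sum_le_of_forall_le _ _ fun m _ => ?_
    refine natDegree_mul_le.trans (Nat.add_le_add ?_ (hdm m))
    have h1 : ((Fc s G m).map φ).natDegree ≤ Dm := by
      refine natDegree_map_le.trans ?_
      exact Finset.le_sup (f := fun m : Jd g (2 * g) d => (Fc s G m).natDegree) (Finset.mem_univ m)
    exact h1.trans (Nat.le_mul_of_pos_right _ (by omega))
  · intro m
    refine (hdm m).trans ?_
    rw [add_mul]
    exact Nat.le_add_left _ _
  · intro t ht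
    obtain ⟨h1, h3⟩ := hT t ht
    refine ⟨h1, ?_⟩
    rw [eval_mul]
    have h4 : eval t (MvPolynomial.eval₂ (mapRingHom φ)
        (fun x : Fin g × Fin g => (Yh p g (2 * g) (ft (f.map φ))) x.1 (lo x.2)) G) = 0 := by
      rw [← coe_evalRingHom, MvPolynomial.eval₂_comp_left]
      exact h3
    rw [h4, mul_zero]

end Pool.Agent.Helper62.BM.FG
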