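import Pool.Agent.Helper62.BM.LStm
import Pool.Agent.Helper12.BM.FewG

/-!
# L11: preparations
-/

set_option autoImplicit false

open Polynomial Matrix Finset

namespace Pool.Agent.Helper62.BM.FG

open Pool.Agent.Helper62.BM
open Pool.Agent.Helper12.BM (Sm_symm sum_split lo_or_hi)

section defs

variable {C : Type} [CommRing C]

/-- `2 det Q'₁₂`. -/
noncomputable def cs {g : ℕ} (Q2 : Matrix (Fin (2 * g)) (Fin (2 * g)) C[X]) : C[X] :=
  2 * (Q2.submatrix (lo : Fin g → Fin (2 * g)) hi).det

/-- The generic symmetric matrix. -/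
noncomputable def Sh (C : Type) [CommRing C] (g : ℕ) :
    Matrix (Fin g) (Fin g) (MvPolynomial (Vars g) C[X]) :=
  Matrix.of fun l m => MvPolynomial.X (Sum.inr ⟨(min l m, max l m), min_le_max⟩)

/-- The generic first block. -/
noncomputable def Yg (C : Type) [CommRing C] (g : ℕ) :
    Matrix (Fin g) (Fin g) (MvPolynomial (Vars g) C[X]) :=
  Matrix.of fun l m => MvPolynomial.X (Sum.inl (l, m))

/-- `Y₁ (4 S + Q'₁₁) adj(Q'₁₂ᵀ)`. -/
noncomputable def R2 {g : ℕ} (Q2 : Matrix (Fin (2 * g)) (Fin (2 * g)) C[X]) :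
    Matrix (Fin g) (Fin g) (MvPolynomial (Vars g) C[X]) :=
  Yg C g * (((4 : MvPolynomial (Vars g) C[X]) • Sh C g +
    (Q2.submatrix lo lo).map MvPolynomial.C) *
      (((Q2.submatrix lo hi)ᵀ).adjugate).map MvPolynomial.C)

/-- The generic frame (times `2 det Q'₁₂`). -/
noncomputable def Rm {g : ℕ} (Q2 : Matrix (Fin (2 * g)) (Fin (2 * g)) C[X]) :
    Matrix (Fin g) (Fin (2 * g)) (MvPolynomial (Vars g) C[X]) :=
  Matrix.of fun i s => if h : (s : ℕ) < g then
    MvPolynomial.C (cs Q2) * MvPolynomial.X (Sum.inl (i, ⟨s, h⟩))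
    else R2 Q2 i ⟨s - g, by have := s.2; omega⟩

theorem Rm_lo {g : ℕ} (Q2 : Matrix (Fin (2 * g)) (Fin (2 * g)) C[X]) (i j : Fin g) :
    Rm Q2 i (lo j) = MvPolynomial.C (cs Q2) * MvPolynomial.X (Sum.inl (i, j)) := by
  unfold Rm lo
  rw [Matrix.of_apply, dif_pos j.2]

theorem Rm_hi {g : ℕ} (Q2 : Matrix (Fin (2 * g)) (Fin (2 * g)) C[X]) (i j : Fin g) :
    Rm Q2 i (hi j) = R2 Q2 i j := by
  unfold Rm hi
  rw [Matrix.of_apply, dif_neg (by simp)]
  congr 1
  ext
  simp

end defs

section split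

variable {F : Type} [Field F] {g : ℕ}

/-- The evaluation of the generic frame. -/
theorem eval_Rm {C : Type} [CommRing C] (ψ : C[X] →+* F)
    (Q2 : Matrix (Fin (2 * g)) (Fin (2 * g)) C[X])
    (h2 : (2 : F) ≠ 0) (Q : Matrix (Fin (2 * g)) (Fin (2 * g)) F)
    (Y : Matrix (Fin g) (Fin (2 * g)) F) (hQ : Qᵀ = -Q) (hQ2 : Q.submatrix hi hi = 0)
    (hY : (Y.submatrix id lo).det ≠ 0) (hI : Y * Q * Yᵀ = 0)
    (hψ : ∀ l m, ψ (Q2 l m) = 2 * Q l m) (i : Fin g) (s : Fin (2 * g)) :
    MvPolynomial.eval₂ ψ (frv Q Y) (Rm Q2 i s) = ψ (cs Q2) * Y i s := by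
  rcases lo_or_hi s with ⟨j, rfl⟩ | ⟨j, rfl⟩
  · rw [Rm_lo, MvPolynomial.eval₂_mul, MvPolynomial.eval₂_C, MvPolynomial.eval₂_X]
    rfl
  · rw [Rm_hi]
    set Ev : MvPolynomial (Vars g) C[X] →+* F := MvPolynomial.eval₂Hom ψ (frv Q Y) with hEv
    have hC : ∀ c, Ev (MvPolynomial.C c) = ψ c := fun c => MvPolynomial.eval₂_C _ _ _
    have hX : ∀ v, Ev (MvPolynomial.X v) = frv Q Y v := fun c => MvPolynomial.eval₂_X _ _ _
    change Ev (R2 Q2 i j) = _
    set Y1 := Y.submatrix id lo with hY1
    set Y2 := Y.submatrix id (hi : Fin g → Fin (2 * g)) with hY2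
    set Q11 := Q.submatrix (lo : Fin g → Fin (2 * g)) lo with hQ11
    set Q12 := Q.submatrix (lo : Fin g → Fin (2 * g)) hi with hQ12
    have e1 : (Yg C g).map Ev = Y1 := by
      ext l m
      rw [Matrix.map_apply, Yg, Matrix.of_apply, hX]
      rfl
    have e2 : (Sh C g).map Ev = Sm Q Y := by
      ext l m
      rw [Matrix.map_apply, Sh, Matrix.of_apply, hX]
      change Sm Q Y (min l m) (max l m) = Sm Q Y l m
      rcases le_total l m with h | h
      · rw [min_eq_left h, max_eq_right h]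
      · rw [min_eq_right h, max_eq_left h]
        exact Sm_symm h2 Q Y hQ hQ2 hY hI m l
    have e3 : ((Q2.submatrix lo lo).map MvPolynomial.C).map Ev =
        (2 : F) • Q11 := by
      ext l m
      rw [Matrix.map_apply, Matrix.map_apply, hC, Matrix.submatrix_apply, hψ]
      rfl
    have e4' : (((Q2.submatrix lo hi)ᵀ : Matrix (Fin g) (Fin g) C[X])).map ψ =
        (2 : F) • Q12ᵀ := by
      ext l m
      rw [Matrix.map_apply, Matrix.transpose_apply, Matrix.submatrix_apply, hψ]
      rfl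
    have e4 : ((((Q2.submatrix lo hi)ᵀ).adjugate).map MvPolynomial.C).map Ev =
        ((2 : F) • Q12ᵀ).adjugate := by
      rw [← e4']
      have : ((((Q2.submatrix lo hi)ᵀ).adjugate).map MvPolynomial.C).map Ev =
          (((Q2.submatrix lo hi)ᵀ).adjugate : Matrix (Fin g) (Fin g) C[X]).map ψ := by
        ext l m
        rw [Matrix.map_apply, Matrix.map_apply, hC, Matrix.map_apply]
      rw [this]
      exact RingHom.map_adjugate ψ _
    have e5 : ψ (cs Q2) = 2 * ((2 : F) • Q12ᵀ).det := by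
      rw [cs, map_mul, map_ofNat, RingHom.map_det]
      congr 1
      rw [← Matrix.det_transpose, ← e4']
      rfl
    have hu : IsUnit Y1.det := isUnit_iff_ne_zero.mpr hY
    have f0 : (R2 Q2).map Ev = Y1 * (((4 : F) • Sm Q Y + (2 : F) • Q11) *
        ((2 : F) • Q12ᵀ).adjugate) := by
      rw [R2, Matrix.map_mul, Matrix.map_mul, e1, e4, Matrix.map_add _ (map_add Ev), e3]
      congr 3
      ext l m
      rw [Matrix.map_apply, Matrix.smul_apply, smul_eq_mul, map_mul, map_ofNat, ← e2]
      rfl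
    have f1 : (4 : F) • Sm Q Y + (2 : F) • Q11 = (2 : F) • (Y1⁻¹ * Y2 * ((2 : F) • Q12ᵀ)) := by
      show (4 : F) • (Y1⁻¹ * Y2 * Q12ᵀ - (2⁻¹ : F) • Q11) + (2 : F) • Q11 = _
      rw [Matrix.mul_smul, smul_smul, smul_sub, smul_smul]
      have g1 : (4 : F) * 2⁻¹ = 2 := by
        rw [show (4 : F) = 2 * 2 by norm_num, mul_assoc, mul_inv_cancel₀ h2, mul_one]
      have g2 : (2 : F) * 2 = 4 := by norm_num
      rw [g1, g2]
      abel
    have f2 := congrFun (congrFun f0 i) j
    rw [Matrix.map_apply] at f2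
    rw [f2, f1, e5]
    have f3 : Y1 * ((2 : F) • (Y1⁻¹ * Y2 * ((2 : F) • Q12ᵀ)) * ((2 : F) • Q12ᵀ).adjugate) =
        (2 * ((2 : F) • Q12ᵀ).det) • Y2 := by
      rw [Matrix.smul_mul, Matrix.mul_assoc (Y1⁻¹ * Y2), Matrix.mul_adjugate, Matrix.mul_smul,
        Matrix.mul_smul, Matrix.mul_smul, Matrix.mul_one, ← Matrix.mul_assoc,
        Matrix.mul_nonsing_inv _ hu, Matrix.one_mul, smul_smul]
    rw [f3]
    rfl

end split

/-! ## The differential equation, for arbitrary constant data -/

section ode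

variable {C : Type} [CommRing C] {n : ℕ}

/-- The numerators. -/
noncomputable def b0 (N : Matrix (Fin n) (Fin n) C) (v : Fin n → C) :
    Matrix (Fin n) (Fin n) C[X] :=
  Matrix.of fun i j => Polynomial.C (N i j) * ∏ m ∈ univ.erase j, (X - Polynomial.C (v m))

noncomputable def b1 (E N : Matrix (Fin n) (Fin n) C) (v : Fin n → C) :
    Matrix (Fin n) (Fin n) C[X] :=
  E.map Polynomial.C * b0 N v * (E.adjugate).map Polynomial.C

noncomputable def q1 (E : Matrix (Fin n) (Fin n) C) (δ : C) (v : Fin n → C) : C[X] :=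
  Polynomial.C δ * (∏ j, (X - Polynomial.C (v j))) * Polynomial.C E.det

theorem ode1 {g : ℕ} (E N : Matrix (Fin n) (Fin n) C) (δ : C) (v : Fin n → C)
    (Y : Matrix (Fin g) (Fin n) C[X])
    (h : ∀ i j, Polynomial.C δ * ((X - Polynomial.C (v j)) *
      derivative ((Y * E.map Polynomial.C) i j)) =
      ∑ m, (Y * E.map Polynomial.C) i m * Polynomial.C (N m j)) (i : Fin g) (l : Fin n) :
    q1 E δ v * derivative (Y i l) = ∑ m, Y i m * b1 E N v m l := by
  classical
  have h1 : (Polynomial.C δ * (∏ j, (X - Polynomial.C (v j)))) •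
      (Y.map derivative * E.map Polynomial.C) = Y * E.map Polynomial.C * b0 N v := by
    ext1 i j
    have e1 : (Y.map derivative * E.map Polynomial.C) i j =
        derivative ((Y * E.map Polynomial.C) i j) := by
      rw [Matrix.mul_apply, Matrix.mul_apply, derivative_sum]
      refine Finset.sum_congr rfl fun m _ => ?_
      rw [Matrix.map_apply, Matrix.map_apply, derivative_mul, derivative_C, mul_zero, add_zero]
    have e2 : (∏ j, (X - Polynomial.C (v j))) =
        (∏ m ∈ univ.erase j, (X - Polynomial.C (v m))) * (X - Polynomial.C (v j)) := by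
      rw [Finset.prod_erase_mul _ _ (Finset.mem_univ j)]
    rw [Matrix.smul_apply, smul_eq_mul, e1, e2]
    calc Polynomial.C δ * ((∏ m ∈ univ.erase j, (X - Polynomial.C (v m))) *
          (X - Polynomial.C (v j))) * derivative ((Y * E.map Polynomial.C) i j)
        = (∏ m ∈ univ.erase j, (X - Polynomial.C (v m))) * (Polynomial.C δ *
          ((X - Polynomial.C (v j)) * derivative ((Y * E.map Polynomial.C) i j))) := by ring
      _ = (Y * E.map Polynomial.C * b0 N v) i j := by
        rw [h, Matrix.mul_apply, Finset.mul_sum]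
        refine Finset.sum_congr rfl fun m hm => ?_
        rw [b0, Matrix.of_apply]
        ring
  have h2 : q1 E δ v • Y.map derivative = Y * b1 E N v := by
    have e3 : E.map Polynomial.C * (E.adjugate).map Polynomial.C =
        Polynomial.C E.det • (1 : Matrix (Fin n) (Fin n) C[X]) := by
      rw [← Matrix.map_mul, Matrix.mul_adjugate]
      ext1 x y
      rw [Matrix.map_apply, Matrix.smul_apply, Matrix.smul_apply, smul_eq_mul, smul_eq_mul, map_mul]
      congr 1
      rw [Matrix.one_apply, Matrix.one_apply]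
      split_ifs <;> simp
    calc q1 E δ v • Y.map derivative = (Polynomial.C δ * (∏ j, (X - Polynomial.C (v j)))) •
          (Y.map derivative * (E.map Polynomial.C * (E.adjugate).map Polynomial.C)) := by
          rw [e3, Matrix.mul_smul, Matrix.mul_one, smul_smul]
          rfl
      _ = ((Polynomial.C δ * (∏ j, (X - Polynomial.C (v j)))) •
          (Y.map derivative * E.map Polynomial.C)) * (E.adjugate).map Polynomial.C := by
          rw [← Matrix.mul_assoc, Matrix.smul_mul]
      _ = Y * b1 E N v := by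
          rw [h1, b1]
          simp only [Matrix.mul_assoc]
  have := congrFun (congrFun h2 i) l
  rw [Matrix.smul_apply, smul_eq_mul, Matrix.map_apply, Matrix.mul_apply] at this
  exact this

/-- Multiplication of the frame by a polynomial `s`. -/
theorem ode2 {g : ℕ} (s q : C[X]) (b : Matrix (Fin n) (Fin n) C[X])
    (Y : Matrix (Fin g) (Fin n) C[X])
    (h : ∀ i l, q * derivative (Y i l) = ∑ m, Y i m * b m l) (i : Fin g) (l : Fin n) :
    s * q * derivative ((s • Y) i l) = ∑ m, (s • Y) i m *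
      ((if m = l then q * derivative s else 0) + s * b m l) := by
  classical
  rw [Matrix.smul_apply, smul_eq_mul, derivative_mul]
  simp only [mul_add, Finset.sum_add_distrib, mul_ite, mul_zero,
    Finset.sum_ite_eq', Finset.mem_univ, if_true]
  rw [Matrix.smul_apply, smul_eq_mul]
  have : ∑ x, (s • Y) i x * (s * b x l) = s * s * (q * derivative (Y i l)) := by
    rw [h, Finset.mul_sum]
    refine Finset.sum_congr rfl fun m _ => ?_
    rw [Matrix.smul_apply, smul_eq_mul]
    ring
  rw [this]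
  ring

end ode

section maps

variable {A K : Type} [CommRing A] [CommRing K] (φ : A →+* K) {n : ℕ}

theorem map_b0 (N : Matrix (Fin n) (Fin n) A) (v : Fin n → A) (l m : Fin n) :
    (b0 N v l m).map φ = b0 (N.map φ) (fun j => φ (v j)) l m := by
  rw [b0, Matrix.of_apply, b0, Matrix.of_apply, Polynomial.map_mul, Polynomial.map_prod]
  simp

theorem map_b1 (E N : Matrix (Fin n) (Fin n) A) (v : Fin n → A) (l m : Fin n) :
    (b1 E N v l m).map φ = b1 (E.map φ) (N.map φ) (fun j => φ (v j)) l m := by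
  have e1 : (E.map Polynomial.C).map (mapRingHom φ) = (E.map φ).map Polynomial.C := by
    ext1 i j
    rw [Matrix.map_apply, Matrix.map_apply, coe_mapRingHom, Polynomial.map_C,
      Matrix.map_apply, Matrix.map_apply]
  have e2 : ((E.adjugate).map Polynomial.C).map (mapRingHom φ) =
      ((E.map φ).adjugate).map Polynomial.C := by
    have : (E.map φ).adjugate = (E.adjugate).map φ := (RingHom.map_adjugate φ E).symm
    rw [this]
    ext1 i j
    rw [Matrix.map_apply, Matrix.map_apply, coe_mapRingHom, Polynomial.map_C,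
      Matrix.map_apply, Matrix.map_apply]
  have e3 : (b0 N v).map (mapRingHom φ) = b0 (N.map φ) fun j => φ (v j) := by
    ext1 i j
    rw [Matrix.map_apply, coe_mapRingHom, map_b0]
  have e4 : (b1 E N v).map (mapRingHom φ) = b1 (E.map φ) (N.map φ) fun j => φ (v j) := by
    rw [b1, Matrix.map_mul, Matrix.map_mul, e1, e2, e3, b1]
  have := congrFun (congrFun e4 l) m
  rw [Matrix.map_apply] at this
  exact this

theorem map_q1 (E : Matrix (Fin n) (Fin n) A) (δ : A) (v : Fin n → A) :
    (q1 E δ v).map φ = q1 (E.map φ) (φ δ) fun j => φ (v j) := by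
  have : (E.map φ).det = φ E.det := (RingHom.map_det φ E).symm
  rw [q1, q1, this, Polynomial.map_mul, Polynomial.map_mul, Polynomial.map_prod]
  simp

end maps

/-! ## The data, cleared of denominators -/

section clear

variable {C : Type} [CommRing C] {n : ℕ}

/-- `∏_(m ≠ i) (c_i - c_m)`. -/
def Pc (c : Fin n → C) (i : Fin n) : C := ∏ m ∈ univ.erase i, (c i - c m)

/-- The common denominator. -/
def Dl (lam : C) (c : Fin n → C) : C := lam * ∏ i, Pc c i ^ 3

/-- The numerators. -/
noncomputable def Nm (f : C[X]) (c : Fin n → C) : Matrix (Fin n) (Fin n) C :=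
  Matrix.of fun i j => if i = j then 0 else (∏ i' ∈ univ.erase i, Pc c i' ^ 3) *
    (f.eval (c j) - f.eval (c i)) * (∏ m ∈ (univ.erase i).erase j, (c i - c m)) ^ 2

theorem map_Pc {K : Type} [CommRing K] (φ : C →+* K) (c : Fin n → C) (i : Fin n) :
    φ (Pc c i) = Pc (fun j => φ (c j)) i := by
  rw [Pc, Pc, map_prod]
  simp

theorem map_Dl {K : Type} [CommRing K] (φ : C →+* K) (lam : C) (c : Fin n → C) :
    φ (Dl lam c) = Dl (φ lam) fun j => φ (c j) := by
  rw [Dl, Dl, map_mul, map_prod]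
  simp only [map_pow, map_Pc]

theorem map_Nm {K : Type} [CommRing K] (φ : C →+* K) (f : C[X]) (c : Fin n → C) :
    (Nm f c).map φ = Nm (f.map φ) fun j => φ (c j) := by
  ext1 i j
  rw [Matrix.map_apply, Nm, Matrix.of_apply, Nm, Matrix.of_apply]
  split_ifs
  · exact map_zero φ
  · rw [map_mul, map_mul, map_prod, map_pow, map_prod, map_sub]
    simp only [map_pow, map_Pc, map_sub]
    rw [Polynomial.eval_map_apply, Polynomial.eval_map_apply]

theorem clear {F : Type} [Field F] (f : F[X]) (lam : F) (c : Fin n → F) (hl : lam ≠ 0)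
    (hc : Function.Injective c) (i j : Fin n) :
    Nm f c i j = Dl lam c * (Qc f c i j * kc lam c j) := by
  have hP : ∀ i, Pc c i ≠ 0 := by
    intro i
    rw [Pc, Finset.prod_ne_zero_iff]
    intro m hm h0
    exact (Finset.ne_of_mem_erase hm) (hc (sub_eq_zero.mp h0)).symm
  rw [Nm, Matrix.of_apply, Qc, Matrix.of_apply]
  split_ifs with hij
  · ring
  · have hw : ∀ i, wt c i = (Pc c i)⁻¹ := by
      intro i
      rw [wt, Pc, Finset.prod_inv_distrib]
    have hk : kc lam c j = lam⁻¹ * Pc c j := rfl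
    have hd : c i - c j ≠ 0 := by
      intro h0
      exact hij (hc (sub_eq_zero.mp h0))
    have hR : Pc c i = (c i - c j) * ∏ m ∈ (univ.erase i).erase j, (c i - c m) := by
      rw [Pc, Finset.mul_prod_erase _ (fun m => c i - c m)
        (Finset.mem_erase.mpr ⟨Ne.symm hij, Finset.mem_univ j⟩)]
    have hD : Dl lam c = lam * (Pc c i ^ 3 * ∏ i' ∈ univ.erase i, Pc c i' ^ 3) := by
      rw [Dl, Finset.mul_prod_erase _ (fun i => Pc c i ^ 3) (Finset.mem_univ i)]
    rw [hw, hw, hk, hD]
    have hPj := hP j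
    have hPi := hP i
    set R := ∏ m ∈ (univ.erase i).erase j, (c i - c m) with hRdef
    set W := ∏ i' ∈ univ.erase i, Pc c i' ^ 3 with hW
    set Pj := Pc c j
    have hR0 : R ≠ 0 := by
      intro h0
      rw [h0, mul_zero] at hR
      exact hPi hR
    rw [hR] at hPi ⊢
    field_simp

theorem Dl_ne {F : Type} [CommRing F] [IsDomain F] (lam : F) (c : Fin n → F) (hl : lam ≠ 0)
    (hc : Function.Injective c) : Dl lam c ≠ 0 := by
  rw [Dl]
  refine mul_ne_zero hl ?_
  rw [Finset.prod_ne_zero_iff]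
  intro i _
  refine pow_ne_zero _ ?_
  rw [Pc, Finset.prod_ne_zero_iff]
  intro m hm h0
  exact (Finset.ne_of_mem_erase hm) (hc (sub_eq_zero.mp h0)).symm

theorem inj_of_Dl {F : Type} [CommRing F] [IsDomain F] (lam : F) (c : Fin n → F)
    (h : Dl lam c ≠ 0) : lam ≠ 0 ∧ Function.Injective c := by
  rw [Dl] at h
  refine ⟨left_ne_zero_of_mul h, ?_⟩
  have h1 := right_ne_zero_of_mul h
  rw [Finset.prod_ne_zero_iff] at h1
  intro i j hij
  by_contra hne
  apply h1 i (Finset.mem_univ i)
  rw [Pc, Finset.prod_eq_zero (Finset.mem_erase.mpr ⟨Ne.symm hne, Finset.mem_univ j⟩)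
    (by rw [hij, sub_self]), zero_pow (by norm_num)]

end clear

end Pool.Agent.Helper62.BM.FG
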