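import Pool.Agent.Helper62.BM.LStm
import Pool.Agent.Helper18.BM.HW

/-!
# The Hasse-Witt functionals of `f(x) - t`: degrees, isotropy, horizontality
-/

set_option autoImplicit false

open Polynomial Matrix Finset

namespace Pool.Agent.Helper62.BM

open Pool.Agent.Helper18.BM

lemma cdeg_ft {R : Type} [CommRing R] (f : R[X]) : CDeg (ft f) 1 := by
  refine CDeg.sub (fun k => ?_) cdeg_CX
  rw [coeff_map, natDegree_C]
  exact zero_le_one

theorem l_HWdeg : L_HWdeg := by
  intro C _ p g n f i l
  have h1 : CDeg (X ^ (l : ℕ) * ft f ^ ((p - 1) / 2)) ((p - 1) / 2) := by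
    have := ((cdeg_X (R := C) 0).pow (l : ℕ)).mul ((cdeg_ft f).pow ((p - 1) / 2))
    simpa using this
  exact h1 _

theorem l_HWiso : L_HWiso := by
  intro R _ p _ _ hp2 g h hdeg i i'
  have hp : p.Prime := Fact.out
  obtain ⟨q', hq'⟩ : ∃ q', p = 2 * (q' + 1) + 1 := by
    have h1 := hp.two_le
    have h2 : p % 2 = 1 := hp.mod_two_eq_one_iff_ne_two.mpr hp2
    exact ⟨p / 2 - 1, by omega⟩
  have hq : (p - 1) / 2 = q' + 1 := by omega
  have key := iso_gen p hq' h (2 * g) hdeg i i'
  have h1 : h.map Polynomial.C ^ (q' + 1) * Polynomial.C h ^ (q' + 1) * Q2 (2 * g) h =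
      ∑ l ∈ range (2 * g), ∑ m ∈ range (2 * g),
        Polynomial.C (Polynomial.C ((((l : ℕ) : R) - ((m : ℕ) : R)) * h.coeff (l + m + 2))) *
          ((X ^ l * h ^ (q' + 1)).map Polynomial.C * Polynomial.C (X ^ m * h ^ (q' + 1))) := by
    unfold Q2
    rw [Finset.mul_sum]
    refine Finset.sum_congr rfl fun l _ => ?_
    rw [Finset.mul_sum]
    refine Finset.sum_congr rfl fun m _ => ?_
    generalize Polynomial.C (Polynomial.C ((((l : ℕ) : R) - ((m : ℕ) : R)) * h.coeff (l + m + 2))) = c
    rw [Polynomial.map_mul, Polynomial.map_pow, Polynomial.map_pow, Polynomial.map_X, C_mul, C_pow, C_pow]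
    ring
  rw [h1, cc_sum] at key
  simp only [cc_sum, cc_prod] at key
  rw [Finset.sum_range] at key
  simp only [Finset.sum_range] at key
  simp only [Yh, hq, Matrix.of_apply]
  exact key

/-- The entries in the basis `b_j`. -/
lemma entryh {C : Type} [CommRing C] (p g n : ℕ) (h : C[X][X]) (a : Fin n → C) (i : Fin g)
    (j : Fin n) :
    (Yh p g n h * (Em a).map Polynomial.C) i j =
      (bb a j * h ^ ((p - 1) / 2)).coeff (p * ((i : ℕ) + 1) - 1) := by
  rw [Matrix.mul_apply, ← bb_eq]
  have h1 : (bp a j).map Polynomial.C =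
      ∑ l : Fin n, Polynomial.C (Polynomial.C ((bp a j).coeff l)) * X ^ (l : ℕ) := by
    rw [← Finset.sum_range fun l => Polynomial.C (Polynomial.C ((bp a j).coeff l)) * X ^ l]
    conv_lhs => rw [as_sum_range' (bp a j) n (natDegree_bp a j)]
    rw [Polynomial.map_sum]
    refine Finset.sum_congr rfl fun l _ => ?_
    rw [Polynomial.map_monomial, C_mul_X_pow_eq_monomial]
  rw [h1, Finset.sum_mul, finsetSum_coeff]
  refine Finset.sum_congr rfl fun l _ => ?_
  rw [mul_assoc, coeff_C_mul, mul_comm]
  rfl

section interp

variable {F : Type} [Field F] {n : ℕ}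

/-- A polynomial of degree `< n` is zero if it is zero at `n` points. -/
lemma zero_of_eval (c : Fin n → F) (hc : Function.Injective c) (P : F[X]) (hP : P.natDegree < n)
    (h : ∀ i, P.eval (c i) = 0) : P = 0 := by
  refine Polynomial.eq_zero_of_natDegree_lt_card_of_eval_eq_zero P hc h ?_
  simpa using hP

lemma eval_bp_ne (c : Fin n → F) {i j : Fin n} (h : i ≠ j) : (bp c j).eval (c i) = 0 := by
  unfold bp
  rw [eval_prod]
  refine Finset.prod_eq_zero (mem_erase.2 ⟨h, mem_univ i⟩) ?_
  simp

lemma eval_bp_self (c : Fin n → F) (j : Fin n) :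
    (bp c j).eval (c j) = ∏ m ∈ univ.erase j, (c j - c m) := by
  unfold bp
  rw [eval_prod]
  simp

lemma wt_eval (c : Fin n → F) (hc : Function.Injective c) (j : Fin n) :
    wt c j * (bp c j).eval (c j) = 1 := by
  rw [eval_bp_self]
  unfold wt
  rw [← Finset.prod_mul_distrib]
  refine Finset.prod_eq_one fun m hm => ?_
  refine inv_mul_cancel₀ (sub_ne_zero.2 fun h => ?_)
  exact (mem_erase.1 hm).1 (hc h).symm

end interp

/-- The quotient `β_j = (f - v_j) / (lam (x - c_j))`, with its properties. -/
lemma beta {F : Type} [Field F] {g : ℕ} (f : F[X]) (lam : F) (c : Fin (2 * g) → F)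
    (hC : Crit g f lam c) (hlam : lam ≠ 0) (j : Fin (2 * g)) :
    ∃ β : F[X], C lam * ((X - C (c j)) * β) = f - C (f.eval (c j)) ∧
      β * derivative f = (f - C (f.eval (c j))) * bp c j ∧
      bp c j - 2 * derivative β =
        -2 * ∑ a, C (Qc f c a j * kc lam c j) * bp c a := by
  obtain ⟨hdeg, hder, hc, hv⟩ := hC
  have hroot : (f - C (f.eval (c j))).IsRoot (c j) := by simp
  obtain ⟨β', hβ'⟩ := dvd_iff_isRoot.2 hroot
  refine ⟨C lam⁻¹ * β', ?_, ?_, ?_⟩
  · rw [hβ']
    have h1 : C lam * C lam⁻¹ = (1 : F[X]) := by rw [← C_mul, mul_inv_cancel₀ hlam, C_1]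
    linear_combination ((X - C (c j)) * β') * h1
  · have h1 : C lam * C lam⁻¹ = (1 : F[X]) := by rw [← C_mul, mul_inv_cancel₀ hlam, C_1]
    have h2 : ∏ m, (X - C (c m)) = (X - C (c j)) * bp c j := by
      unfold bp
      exact (Finset.mul_prod_erase univ (fun m => X - C (c m)) (mem_univ j)).symm
    rw [hder, h2, hβ']
    linear_combination (β' * (X - C (c j)) * bp c j) * h1
  · -- compare the values at the `c_i`
    set β : F[X] := C lam⁻¹ * β' with hβ
    have h1 : C lam * C lam⁻¹ = (1 : F[X]) := by rw [← C_mul, mul_inv_cancel₀ hlam, C_1]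
    have hb : C lam * ((X - C (c j)) * β) = f - C (f.eval (c j)) := by
      rw [hβ, hβ']
      linear_combination ((X - C (c j)) * β') * h1
    clear_value β
    -- derivative of the relation
    have hb' : C lam * (β + (X - C (c j)) * derivative β) = derivative f := by
      have := congrArg derivative hb
      rw [derivative_mul, derivative_C, zero_mul, zero_add, derivative_mul, derivative_sub,
        derivative_X, derivative_C, sub_zero, one_mul, derivative_sub, derivative_C, sub_zero]
        at this
      exact this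
    have hb'' : C lam * (2 * derivative β + (X - C (c j)) * derivative (derivative β)) =
        derivative (derivative f) := by
      have := congrArg derivative hb'
      rw [derivative_mul, derivative_C, zero_mul, zero_add, derivative_add, derivative_mul,
        derivative_sub, derivative_X, derivative_C, sub_zero, one_mul] at this
      rw [← this]
      ring
    have hf'' : derivative (derivative f) = C lam * ∑ m, bp c m := by
      rw [hder, derivative_mul, derivative_C, zero_mul, zero_add, derivative_prod_finset]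
      congr 1
      refine Finset.sum_congr rfl fun m _ => ?_
      unfold bp
      rw [derivative_sub, derivative_X, derivative_C, sub_zero, mul_one]
    have hβdeg : β.natDegree ≤ 2 * g := by
      have h3 : (C lam * ((X - C (c j)) * β)).natDegree ≤ 2 * g + 1 := by
        rw [hb]
        refine (natDegree_sub_le _ _).trans ?_
        rw [natDegree_C, hdeg]
        simp
      by_cases h0 : β = 0
      · rw [h0]; simp
      rw [natDegree_C_mul hlam, natDegree_mul (X_sub_C_ne_zero _) h0, natDegree_X_sub_C] at h3
      omega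
    rw [← sub_eq_zero]
    refine zero_of_eval c hc _ ?_ fun i => ?_
    · have hg : 0 < 2 * g := j.pos
      have h4 : (bp c j - 2 * derivative β).natDegree < 2 * g := by
        refine lt_of_le_of_lt (natDegree_sub_le _ _) (max_lt (natDegree_bp c j) ?_)
        refine lt_of_le_of_lt (natDegree_mul_le.trans (add_le_add (natDegree_ofNat 2).le
          (natDegree_derivative_le β))) ?_
        omega
      have h5 : (-2 * ∑ a, C (Qc f c a j * kc lam c j) * bp c a).natDegree < 2 * g := by
        refine lt_of_le_of_lt natDegree_mul_le ?_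
        have h6 : (∑ a, C (Qc f c a j * kc lam c j) * bp c a).natDegree ≤ 2 * g - 1 := by
          refine natDegree_sum_le_of_forall_le _ _ fun a _ => ?_
          refine (natDegree_C_mul_le _ _).trans ?_
          have := natDegree_bp c a
          omega
        have h7 : (-2 : F[X]).natDegree = 0 := by
          rw [show (-2 : F[X]) = -(2 : F[X]) by ring, natDegree_neg, natDegree_ofNat]
        omega
      exact lt_of_le_of_lt (natDegree_sub_le _ _) (max_lt h4 h5)
    · have hsum : (∑ a, C (Qc f c a j * kc lam c j) * bp c a).eval (c i) =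
          Qc f c i j * kc lam c j * (bp c i).eval (c i) := by
        rw [eval_finsetSum, Finset.sum_eq_single i]
        · rw [eval_mul, eval_C]
        · intro b _ hbi
          rw [eval_mul, eval_bp_ne c (Ne.symm hbi), mul_zero]
        · simp
      have hwi := wt_eval c hc i
      have hwj := wt_eval c hc j
      rw [eval_sub, eval_sub, eval_mul, eval_mul, hsum]
      simp only [eval_neg, eval_ofNat]
      by_cases hij : i = j
      · subst hij
        have e1 := congrArg (Polynomial.eval (c i)) hb''
        rw [hf''] at e1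
        rw [eval_mul, eval_C, eval_add, eval_mul, eval_mul, eval_sub, eval_X, eval_C, sub_self,
          zero_mul, add_zero, eval_ofNat, eval_mul, eval_C, eval_finsetSum,
          Finset.sum_eq_single i (fun b _ hb => eval_bp_ne c (Ne.symm hb)) (by simp)] at e1
        have e2 := mul_left_cancel₀ hlam e1
        rw [Qc, Matrix.of_apply, if_pos rfl]
        linear_combination -e2
      · have hcij : c i - c j ≠ 0 := sub_ne_zero.2 fun h => hij (hc h)
        have e1 := congrArg (Polynomial.eval (c i)) hb
        have e2 := congrArg (Polynomial.eval (c i)) hb'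
        have e3 : (derivative f).eval (c i) = 0 := by
          rw [hder, eval_mul, eval_prod, Finset.prod_eq_zero (mem_univ i) (by simp), mul_zero]
        rw [e3] at e2
        simp only [eval_mul, eval_C, eval_sub, eval_X, eval_add] at e1 e2
        rw [eval_bp_ne c hij, Qc, Matrix.of_apply, if_neg hij, kc]
        have hk : (bp c j).eval (c j) = ∏ m ∈ univ.erase j, (c j - c m) := eval_bp_self c j
        rw [← hk]
        have e4 : β.eval (c i) + (c i - c j) * (derivative β).eval (c i) = 0 := by
          rcases mul_eq_zero.1 e2 with h | h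
          · exact absurd h hlam
          · exact h
        have e5 : (c i - c j) ^ 2 * (derivative β).eval (c i) =
            lam⁻¹ * (f.eval (c j) - f.eval (c i)) := by
          field_simp
          linear_combination (lam * (c i - c j)) * e4 - e1
        have e6 : (derivative β).eval (c i) =
            lam⁻¹ * (f.eval (c j) - f.eval (c i)) / (c i - c j) ^ 2 := by
          rw [eq_div_iff (pow_ne_zero 2 hcij), ← e5]
          ring
        rw [e6]
        have e7 : wt c i * wt c j * (f.eval (c j) - f.eval (c i)) / (c i - c j) ^ 2 *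
            (lam⁻¹ * (bp c j).eval (c j)) * (bp c i).eval (c i) =
            (wt c i * (bp c i).eval (c i)) * (wt c j * (bp c j).eval (c j)) *
              (lam⁻¹ * (f.eval (c j) - f.eval (c i)) / (c i - c j) ^ 2) := by ring
        rw [e7, hwi, hwj]
        ring

theorem l_HWb : L_HWb := by
  intro F _ p _ _ g f lam c hp2g hC hlam i j
  have hp : p.Prime := Fact.out
  have hj : 0 < 2 * g := j.pos
  obtain ⟨q', hq'⟩ : ∃ q', p = 2 * (q' + 1) + 1 := by
    have h1 := hp.two_le
    have h2 : p % 2 = 1 := hp.mod_two_eq_one_iff_ne_two.mpr (by omega)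
    exact ⟨p / 2 - 1, by omega⟩
  have hq : (p - 1) / 2 = q' + 1 := by omega
  have h2q : (2 : F[X][X]) * ((q' + 1 : ℕ) : F[X][X]) = -1 := two_q p hq'
  simp only [entryh, hq]
  have hder : ∀ G : F[X][X], (dc G).coeff (p * ((i : ℕ) + 1) - 1) =
      derivative (G.coeff (p * ((i : ℕ) + 1) - 1)) := fun G => dc_coeff G _
  rw [← hder]
  set h : F[X][X] := ft f with hh
  obtain ⟨β, hβ1, hβ2, hβ3⟩ := beta f lam c hC hlam j
  set B : F[X][X] := β.map Polynomial.C with hB
  set v : F := f.eval (c j) with hv
  have e2 : dc h = -1 := by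
    rw [hh, ft, dc_sub, dc_map, dc_C, derivative_X, Polynomial.C_1, zero_sub]
  have e3 : derivative h = (derivative f).map Polynomial.C := by
    rw [hh, ft, derivative_sub, derivative_C, sub_zero, derivative_map]
  have e4 : dc (bb c j * h ^ (q' + 1)) = -(((q' + 1 : ℕ) : F[X][X]) * bb c j * h ^ q') := by
    rw [dc_mul, dc_bb, dc_pow, e2]
    ring
  have e5 : derivative (B * h ^ (q' + 1)) = (derivative β).map Polynomial.C * h ^ (q' + 1) +
      B * (((q' + 1 : ℕ) : F[X][X]) * h ^ q' * (derivative f).map Polynomial.C) := by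
    rw [derivative_mul, derivative_pow, e3, hB, derivative_map]
    simp
  have e6 : B * (derivative f).map Polynomial.C =
      (f.map Polynomial.C - Polynomial.C (Polynomial.C v)) * bb c j := by
    rw [hB, ← Polynomial.map_mul, hβ2, Polynomial.map_mul, Polynomial.map_sub, Polynomial.map_C,
      bb_eq]
  have e7 : f.map Polynomial.C = h + Polynomial.C X := by rw [hh, ft]; ring
  have e8 : bb c j - 2 * (derivative β).map Polynomial.C =
      -2 * ∑ a, Polynomial.C (Polynomial.C (Qc f c a j * kc lam c j)) * bb c a := by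
    have h1 := congrArg (Polynomial.map Polynomial.C) hβ3
    rw [Polynomial.map_sub, Polynomial.map_mul, Polynomial.map_ofNat, bb_eq, Polynomial.map_mul,
      Polynomial.map_neg, Polynomial.map_ofNat, Polynomial.map_sum] at h1
    rw [h1]
    congr 1
    refine Finset.sum_congr rfl fun a _ => ?_
    rw [Polynomial.map_mul, Polynomial.map_C, bb_eq]
  have key : (2 : F[X][X]) * (Polynomial.C (X - Polynomial.C v) * dc (bb c j * h ^ (q' + 1))) =
      2 * (∑ a, Polynomial.C (Polynomial.C (Qc f c a j * kc lam c j)) * (bb c a * h ^ (q' + 1))) -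
        2 * derivative (B * h ^ (q' + 1)) := by
    have e9 : ∑ a, Polynomial.C (Polynomial.C (Qc f c a j * kc lam c j)) *
        (bb c a * h ^ (q' + 1)) =
        (∑ a, Polynomial.C (Polynomial.C (Qc f c a j * kc lam c j)) * bb c a) * h ^ (q' + 1) := by
      rw [Finset.sum_mul]
      exact Finset.sum_congr rfl fun a _ => by ring
    rw [e9, e4, e5, Polynomial.C_sub]
    have e10 : h ^ (q' + 1) = h ^ q' * h := pow_succ _ _
    rw [e7] at e6
    rw [e10]
    linear_combination (2 * ((q' + 1 : ℕ) : F[X][X]) * h ^ q') * e6 +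
      (h ^ q' * h * bb c j) * h2q - (h ^ q' * h) * e8
  have h2 : (2 : F[X]) ≠ 0 := by
    intro h0
    have h1 : (C (2 : F) : F[X]) = 0 := by rw [map_ofNat]; exact h0
    rw [C_eq_zero] at h1
    have : ((2 : ℕ) : F) = 0 := by exact_mod_cast h1
    rw [CharP.cast_eq_zero_iff F p] at this
    have := Nat.le_of_dvd (by norm_num) this
    omega
  have h2c : ∀ G : F[X][X], ((2 : F[X][X]) * G).coeff (p * ((i : ℕ) + 1) - 1) =
      2 * G.coeff (p * ((i : ℕ) + 1) - 1) := by
    intro G
    rw [show (2 : F[X][X]) = Polynomial.C 2 from (map_ofNat Polynomial.C 2).symm, coeff_C_mul]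
  have key2 := congrArg (fun G : F[X][X] => G.coeff (p * ((i : ℕ) + 1) - 1)) key
  simp only [coeff_sub] at key2
  rw [h2c, h2c, h2c, coeff_der, mul_zero, sub_zero, coeff_C_mul] at key2
  have key3 := mul_left_cancel₀ h2 key2
  rw [key3, finsetSum_coeff]
  refine Finset.sum_congr rfl fun a _ => ?_
  rw [coeff_C_mul, mul_comm]

end Pool.Agent.Helper62.BM
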