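import Pool.Agent.Helper62.BM.LStm
import Pool.Agent.Helper72.BM.NV

/-!
# L10: the nonvanishing
-/

set_option autoImplicit false

open Polynomial Matrix Finset Filter

namespace Pool.Agent.Helper62.BM

open Pool.Agent.Helper72.BM

theorem l_NV (hInd : L_Ind) (hEmb : S_Emb) (hTau : S_Tau) : L_NV := by
  intro g hg E e A₀ β
  -- the determinant
  have hA : ∃ p₀ : ℕ, ∀ (p : ℕ) [Fact p.Prime] (C : Type) [Field C] [CharP C p], p₀ ≤ p →
      ∀ (Q P : Matrix (Fin (2 * g)) (Fin (2 * g)) C) (κ v : Fin (2 * g) → C), OkP Q P κ v →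
      (∀ m, E m < p → E1 Q κ m) → (∀ m, 1 ≤ m → E m < p → E2 Q κ m) →
      ∀ (D : Der (KX C)), IsDer D → ∀ (Y : Matrix (Fin g) (Fin (2 * g)) (KX C)),
      (∀ j l, D ((Y * P.map (cst C)) j l) = ((Y * P.map (cst C)) * BqX Q κ v) j l) →
      (∀ c : Fin g → KX C, c ᵥ* Y = 0 → c = 0) →
      Y * (P * Q * Pᵀ).map (cst C) * Yᵀ = 0 → (Y.submatrix id lo).det ≠ 0 := by
    by_contra hcon
    push Not at hcon
    choose p hp C fC cC hle Q P κ v hok hE1 hE2 D hD Y hY hrk hiso hdet using hcon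
    set U : Ultrafilter ℕ := hyperfilter ℕ with hU
    have hN : ∀ N : ℕ, ∀ᶠ i in (U : Filter ℕ), N < p i := by
      intro N
      have h1 : ∀ᶠ i in (atTop : Filter ℕ), N < p i := by
        filter_upwards [eventually_gt_atTop N] with i hi
        exact lt_of_lt_of_le hi (hle i)
      rw [← Nat.cofinite_eq_atTop] at h1
      exact (hyperfilter_le_cofinite (α := ℕ)) h1
    have hT : ∀ i, ∃ τ : KX (C i) →+* KX (C i),
      (∀ q, τ (ι (C i) q) = ι (C i) (expand (C i) (p i) q)) ∧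
      (∀ q : (KX (C i))[X], q.natDegree < p i → q.eval₂ τ (tX (C i)) = 0 → q = 0) ∧
      ∀ D : Der (KX (C i)), IsDer D → ∀ z, D (τ z) = 0 := fun i => hTau (C i) (p i)
    choose τ hτ1 hτ2 hτ3 using hT
    obtain ⟨f', hf1, hf2⟩ := hEmb U (fun i => KX (C i)) (fun i => KX (C i)) τ
        (fun i => tX (C i)) (by
      intro d
      filter_upwards [hN d] with i hi q hq1 hq2
      exact hτ2 i q (lt_of_le_of_lt hq1 hi) hq2)
    have h := (hInd g hg U C p hN Q P κ v hok
      (fun m => by filter_upwards [hN (E m)] with i hi using hE1 i m hi)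
      (fun m hm => by filter_upwards [hN (E m)] with i hi using hE2 i m hm hi) D hD τ hτ1 f' hf1
      (by
        intro Dk hDk z
        refine hf2 Dk D hDk (fun i y => hτ3 i (D i) (hD i) y) (fun i => ?_) z
        rw [hD i X, derivative_X, map_one]) Y hY (fun i c hc => by
          by_contra h0
          exact h0 (hrk i c hc)) hiso).1
    obtain ⟨i, hi⟩ := h.exists
    exact hi (hdet i)
  have hB : ∃ p₀ : ℕ, ∀ (p : ℕ) [Fact p.Prime] (C : Type) [Field C] [CharP C p], p₀ ≤ p →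
      ∀ (Q P : Matrix (Fin (2 * g)) (Fin (2 * g)) C) (κ v : Fin (2 * g) → C), OkP Q P κ v →
      (∀ m, E m < p → E1 Q κ m) → (∀ m, 1 ≤ m → E m < p → E2 Q κ m) →
      ∀ (D : Der (KX C)), IsDer D → ∀ (Y : Matrix (Fin g) (Fin (2 * g)) (KX C)),
      (∀ j l, D ((Y * P.map (cst C)) j l) = ((Y * P.map (cst C)) * BqX Q κ v) j l) →
      (∀ c : Fin g → KX C, c ᵥ* Y = 0 → c = 0) →
      Y * (P * Q * Pᵀ).map (cst C) * Yᵀ = 0 →
      NVp C p (frv ((P * Q * Pᵀ).map (cst C)) Y) e A₀ β := by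
    by_contra hcon
    push Not at hcon
    choose p hp C fC cC hle Q P κ v hok hE1 hE2 D hD Y hY hrk hiso hNV using hcon
    have hNV' : ∀ i, ∃ G : MvPolynomial (Vars g) (@Polynomial (@Polynomial (C i) _) _), G ≠ 0 ∧
        G.totalDegree ≤ e ∧
        (∀ m, (G.coeff m).natDegree < β ∧ ∀ b, ((G.coeff m).coeff b).natDegree < A₀) ∧
        MvPolynomial.eval₂ (evT (C i) (p i)) (frv ((P i * Q i * (P i)ᵀ).map (cst (C i))) (Y i))
          G = 0 := by
      intro i
      have h := hNV i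
      rw [NVp] at h
      push Not at h
      obtain ⟨G, h1, h2, h3, h4⟩ := h
      exact ⟨G, h1, h2, h3, h4⟩
    choose G hG1 hG2 hG3 hG4 using hNV'
    exact nv_core hEmb hTau C p hle D hD _ (fun U hN τ hτ f' hf1 hf2 G' hG' =>
      (hInd g hg U C p hN Q P κ v hok
        (fun m => by filter_upwards [hN (E m)] with i hi using hE1 i m hi)
        (fun m hm => by filter_upwards [hN (E m)] with i hi using hE2 i m hm hi) D hD τ hτ f' hf1
        hf2 Y hY (fun i c hc => by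
          by_contra h0
          exact h0 (hrk i c hc)) hiso).2 G' hG') G hG1 hG2 hG3 hG4
  obtain ⟨p₁, h1⟩ := hA
  obtain ⟨p₂, h2⟩ := hB
  refine ⟨max p₁ p₂, fun p _ C _ _ hp Q P κ v hok hE1 hE2 D hD Y hY hrk hiso => ⟨?_, ?_⟩⟩
  · exact h1 p C ((le_max_left _ _).trans hp) Q P κ v hok hE1 hE2 D hD Y hY hrk hiso
  · exact h2 p C ((le_max_right _ _).trans hp) Q P κ v hok hE1 hE2 D hD Y hY hrk hiso

end Pool.Agent.Helper62.BM
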