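import Pool.Agent.Helper62.BM.LStm

/-!
# L2: power series solutions
-/

set_option autoImplicit false

open Polynomial Matrix Finset

namespace Pool.Agent.Helper62.BM

section seq

variable {k : Type} [Field k] {n : ℕ}

/-- The recursion. -/
noncomputable def psq (W : ℕ → k) (Mc : ℕ → Matrix (Fin n) (Fin n) k) (r : Fin n → k) :
    ℕ → Fin n → k
  | 0 => r
  | (i + 1) =>
    let b : Fin n → k := ∑ l : Fin (i + 1), ((W (i + 1 - l) * ((l : ℕ) : k)) • psq W Mc r l +
      Mc (i + 1 - l) *ᵥ psq W Mc r l);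
    -((W 0 * ((i + 1 : ℕ) : k))⁻¹ • b) +
      ((W 0 * ((i + 1 : ℕ) : k))⁻¹ * (W 0 * ((i + 1 : ℕ) : k))⁻¹) • (Mc 0 *ᵥ b)
termination_by i => i
decreasing_by all_goals exact l.2

theorem psq_eq [CharZero k] (W : ℕ → k) (Mc : ℕ → Matrix (Fin n) (Fin n) k) (r : Fin n → k)
    (h0 : W 0 ≠ 0) (hM : Mc 0 * Mc 0 = 0) (hr : Mc 0 *ᵥ r = 0) (i : ℕ) :
    ∑ q ∈ antidiagonal i, ((W q.1 * ((q.2 : ℕ) : k)) • psq W Mc r q.2 + Mc q.1 *ᵥ psq W Mc r q.2) =
      0 := by
  rw [Finset.Nat.antidiagonal_eq_map', Finset.sum_map]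
  simp only [Function.Embedding.coeFn_mk]
  rw [Finset.sum_range_succ]
  rcases i with _ | i
  · simp only [range_zero, sum_empty, zero_add, Nat.cast_zero, mul_zero, zero_smul, Nat.sub_self]
    rw [psq, hr]
  · set b : Fin n → k := ∑ l : Fin (i + 1), ((W (i + 1 - l) * ((l : ℕ) : k)) • psq W Mc r l +
      Mc (i + 1 - l) *ᵥ psq W Mc r l) with hb
    have h1 : ∑ x ∈ range (i + 1), ((W (i + 1 - x) * ((x : ℕ) : k)) • psq W Mc r x +
        Mc (i + 1 - x) *ᵥ psq W Mc r x) = b := by
      rw [hb, Finset.sum_range]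
    rw [h1, Nat.sub_self]
    have hc : W 0 * ((i + 1 : ℕ) : k) ≠ 0 := mul_ne_zero h0 (Nat.cast_ne_zero.2 (Nat.succ_ne_zero i))
    set c : k := W 0 * ((i + 1 : ℕ) : k) with hcdef
    have h2 : psq W Mc r (i + 1) = -(c⁻¹ • b) + (c⁻¹ * c⁻¹) • (Mc 0 *ᵥ b) := by
      rw [psq]
    have h3 : Mc 0 *ᵥ (Mc 0 *ᵥ b) = 0 := by
      rw [Matrix.mulVec_mulVec, hM, Matrix.zero_mulVec]
    rw [h2, Matrix.mulVec_add, Matrix.mulVec_neg, Matrix.mulVec_smul, Matrix.mulVec_smul, h3,
      smul_zero, add_zero, smul_add, smul_neg, smul_smul, mul_inv_cancel₀ hc, one_smul, smul_smul,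
      ← mul_assoc, mul_inv_cancel₀ hc, one_mul]
    abel

end seq

section tay

variable {k : Type} [Field k]

theorem tay_X (c : k) : tay c X = PowerSeries.X + PowerSeries.C c := by
  simp [tay]

theorem tay_C (c a : k) : tay c (Polynomial.C a) = PowerSeries.C a := by
  simp [tay]

theorem tay_const (c : k) (q : k[X]) :
    PowerSeries.constantCoeff (tay c q) = q.eval c := by
  induction q using Polynomial.induction_on' with
  | add p q hp hq => rw [map_add, map_add, hp, hq, eval_add]
  | monomial m a =>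
    rw [← C_mul_X_pow_eq_monomial, map_mul, map_pow, tay_C, tay_X]
    simp

end tay

theorem l_PS : L_PS := by
  intro k _ _ n M w c hw hM r hr
  set W : ℕ → k := fun i => PowerSeries.coeff i (tay c w) with hW
  set Mc : ℕ → Matrix (Fin n) (Fin n) k := fun i => Matrix.of fun a b =>
    PowerSeries.coeff i (tay c (M a b)) with hMc
  have hW0 : W 0 = w.eval c := by
    rw [hW]
    simp only [PowerSeries.coeff_zero_eq_constantCoeff]
    exact tay_const c w
  have hMv : ∀ i a b, Mc i a b = PowerSeries.coeff i (tay c (M a b)) := fun _ _ _ => rfl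
  have hWv : ∀ i, W i = PowerSeries.coeff i (tay c w) := fun _ => rfl
  have hM0 : Mc 0 = M.map (Polynomial.eval c) := by
    ext a b
    rw [hMv, Matrix.map_apply, PowerSeries.coeff_zero_eq_constantCoeff]
    exact tay_const c _
  have key := psq_eq W Mc r (by rw [hW0]; exact hw) (by rw [hM0]; exact hM) (by rw [hM0]; exact hr)
  refine ⟨fun a => PowerSeries.mk fun i => psq W Mc r i a, fun a => ?_, fun a => ?_⟩
  · rw [← PowerSeries.coeff_zero_eq_constantCoeff_apply, PowerSeries.coeff_mk, psq]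
  · ext i
    have h1 : tay c ((X - Polynomial.C c) * w) = PowerSeries.X * tay c w := by
      rw [map_mul, map_sub, tay_X, tay_C]
      ring
    rw [h1, map_add, mul_comm PowerSeries.X, mul_assoc, PowerSeries.coeff_mul, map_sum, map_zero]
    have h2 := congrFun (key i) a
    rw [Finset.sum_apply, Pi.zero_apply] at h2
    rw [← h2, ← sub_eq_zero]
    have h3 : ∀ j, PowerSeries.coeff j (PowerSeries.X * PowerSeries.derivative k
        (PowerSeries.mk fun i => psq W Mc r i a)) = (j : k) * psq W Mc r j a := by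
      intro j
      rcases j with _ | j
      · simp
      · rw [PowerSeries.coeff_succ_X_mul, PowerSeries.coeff_derivative, PowerSeries.coeff_mk]
        push_cast
        ring
    have h4 : ∀ b, PowerSeries.coeff i (tay c (M a b) * PowerSeries.mk fun i => psq W Mc r i b) =
        ∑ q ∈ antidiagonal i, Mc q.1 a b * psq W Mc r q.2 b := by
      intro b
      rw [PowerSeries.coeff_mul]
      exact Finset.sum_congr rfl fun q _ => by rw [PowerSeries.coeff_mk, hMv]
    rw [Finset.sum_congr rfl fun b _ => h4 b, Finset.sum_comm, ← Finset.sum_add_distrib,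
      ← Finset.sum_sub_distrib]
    refine Finset.sum_eq_zero fun q _ => ?_
    rw [h3, Pi.add_apply, Pi.smul_apply, smul_eq_mul, Matrix.mulVec, dotProduct, hWv]
    ring

end Pool.Agent.Helper62.BM
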