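import Pool.Agent.Helper62.BM.LStm
import Pool.Agent.Helper36.BM.Res

/-!
# L1: the polar part of the `p`-curvature
-/

set_option autoImplicit false

open Polynomial Matrix Finset

namespace Pool.Agent.Helper62.BM

open Pool.Agent.Helper36.BM

theorem l_Res : L_Res := by
  intro C _ p _ _ D hD n B M w c hw hB hM θ hθ
  have : CharP (KX C) p := by
    refine charP_of_injective_ringHom (f := (ι C).comp Polynomial.C) ?_ p
    exact (ι_inj (C := C)).comp Polynomial.C_injective
  have hp : p.Prime := Fact.out
  have hs : D (ι C (X - Polynomial.C c)) = 1 := by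
    rw [hD]
    simp
  set s : KX C := ι C (X - Polynomial.C c) with hsdef
  set R : Matrix (Fin n) (Fin n) C := (w.eval c)⁻¹ • M.map (Polynomial.eval c) with hR
  have hstep : ∀ (u : Fin n → KX C) (a : Fin n → C), (∀ i, Val c (u i) (a i)) →
      ∀ i, Val c (dl D B s u i) ((R *ᵥ a) i) := by
    intro u a hu i
    have e1 : dl D B s u i = s * D (u i) + ∑ j, (s * B i j) * u j := by
      rw [dl_apply]
      simp only [Pi.smul_apply, smul_eq_mul, nab, Matrix.mulVec, dotProduct, mul_add,
        Finset.mul_sum, mul_assoc]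
    have e2 : (R *ᵥ a) i = 0 + ∑ j, R i j * a j := by
      simp [Matrix.mulVec, dotProduct]
    rw [e1, e2]
    refine (Val.sder hD (hu i)).add (Val.sum _ fun j _ => Val.mul ?_ (hu j))
    refine ⟨M i j, w, hw, ?_, ?_⟩
    · rw [← hB i j, map_mul]
      ring
    · rw [hR]
      simp only [Matrix.smul_apply, Matrix.map_apply, smul_eq_mul]
      field_simp
  have hRR : R * R = 0 := by
    rw [hR, Matrix.smul_mul, Matrix.mul_smul, hM, smul_zero, smul_zero]
  have hpow : ∀ (v : Fin n → C[X]) (k : ℕ) (i : Fin n), Val c (((dl D B s) ^ k)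
      (fun i => ι C (v i)) i) (((R ^ k) *ᵥ (fun i => (v i).eval c)) i) := by
    intro v k
    induction k with
    | zero =>
      intro i
      simpa using Val.ofPoly c (v i)
    | succ k ih =>
      intro i
      rw [pow_succ', pow_succ', Module.End.mul_apply, ← Matrix.mulVec_mulVec]
      exact hstep _ _ ih i
  have hRp : R ^ p = 0 := by
    obtain ⟨k, hk⟩ : ∃ k, p = 2 + k := ⟨p - 2, by have := hp.two_le; omega⟩
    rw [hk, pow_add, pow_two, hRR, zero_mul]
  -- the entries of `s ^ p ψ`
  have hent : ∀ i j, Val c (s ^ p * pcv D B p i j) (-(R i j)) := by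
    intro i j
    have h1 := dl_char D B s hs p (fun i => ι C ((Pi.single j 1 : Fin n → C[X]) i))
    have h2 : (fun i => ι C ((Pi.single j 1 : Fin n → C[X]) i)) =
        (Pi.single j 1 : Fin n → KX C) := by
      funext i
      by_cases h : i = j
      · subst h; simp
      · simp [h]
    have h3 := congrFun h1 i
    rw [Pi.smul_apply, Pi.sub_apply, smul_eq_mul] at h3
    have h4 := hpow (Pi.single j 1) p i
    have h5 := hpow (Pi.single j 1) 1 i
    rw [pow_one, pow_one] at h5
    rw [hRp, Matrix.zero_mulVec, Pi.zero_apply] at h4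
    have h6 : (R *ᵥ fun i => ((Pi.single j 1 : Fin n → C[X]) i).eval c) i = R i j := by
      have h7 : (fun i => ((Pi.single j 1 : Fin n → C[X]) i).eval c) =
          (Pi.single j 1 : Fin n → C) := by
        funext i
        by_cases h : i = j
        · subst h; simp
        · simp [h]
      rw [h7]
      simp
    rw [h6] at h5
    have h8 : s ^ p * pcv D B p i j =
        ((dl D B s) ^ p) (fun i => ι C ((Pi.single j 1 : Fin n → C[X]) i)) i -
          dl D B s (fun i => ι C ((Pi.single j 1 : Fin n → C[X]) i)) i := by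
      rw [← h3, h2]
      rfl
    rw [h8, sub_eq_add_neg, ← zero_add (-(R i j))]
    refine h4.add ?_
    have h9 := (Val.ofPoly c (-1 : C[X])).mul h5
    simpa using h9
  have htr : Val c (∑ i, ∑ j, ι C (θ i j) * (s ^ p * pcv D B p j i))
      (∑ i, ∑ j, (θ i j).eval c * -(R j i)) :=
    Val.sum _ fun i _ => Val.sum _ fun j _ => (Val.ofPoly c _).mul (hent j i)
  have h0 : ∑ i, ∑ j, ι C (θ i j) * (s ^ p * pcv D B p j i) = 0 := by
    have h1 : ∑ i, ∑ j, ι C (θ i j) * (s ^ p * pcv D B p j i) =
        s ^ p * (θ.map (ι C) * pcv D B p).trace := by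
      rw [Matrix.trace, Finset.mul_sum]
      refine Finset.sum_congr rfl fun i _ => ?_
      rw [Matrix.diag_apply, Matrix.mul_apply, Finset.mul_sum]
      refine Finset.sum_congr rfl fun j _ => ?_
      rw [Matrix.map_apply]
      ring
    rw [h1, hθ, mul_zero]
  rw [h0] at htr
  have h1 := htr.unique (Val.zero c)
  have h2 : (θ.map (Polynomial.eval c) * M.map (Polynomial.eval c)).trace =
      -(w.eval c) * ∑ i, ∑ j, (θ i j).eval c * -(R j i) := by
    rw [Matrix.trace, Finset.mul_sum]
    refine Finset.sum_congr rfl fun i _ => ?_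
    rw [Matrix.diag_apply, Matrix.mul_apply, Finset.mul_sum]
    refine Finset.sum_congr rfl fun j _ => ?_
    rw [hR]
    simp only [Matrix.smul_apply, Matrix.map_apply, smul_eq_mul]
    field_simp
  rw [h2, h1, mul_zero]

end Pool.Agent.Helper62.BM
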